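import Mathlib
import Pool.Agent.V11102.KP.Shift

/-!
An exact sequence `0 → ℓ² → Z₂ → ℓ² → 0` through the Kalton-Peck space and a compatible pair
`(T, U)` for which `T - U` is not compact.
-/

set_option autoImplicit false

namespace Pool.Agent.Results.MP_23ded2_an.NonCompactPair

open scoped ENNReal
open Filter Topology

/-- The real Hilbert space `ℓ²`. -/
abbrev H : Type := lp (fun _ : ℕ => ℝ) 2

/-- The Kalton-Peck map: the `n`-th coordinate is `x_n log (|x_n| / ‖x‖)`. -/
noncomputable def KP (x : H) (n : ℕ) : ℝ := x n * Real.log (|x n| / ‖x‖)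

/-- The `ℓ²`-norm of a square summable sequence. -/
noncomputable def l2norm (f : ℕ → ℝ) : ℝ := Real.sqrt (∑' n, f n ^ 2)

open Pool.Agent.V11102.KP (Bd K0 K0_quasi K0_smul K0_zero sq_sum_le norm_le_of_sum K0_coord_le
  coord_le K0_cont coord_cont)

theorem KP_eq (x : H) (n : ℕ) : KP x n = K0 x n := by
  show x n * Real.log (|x n| / ‖x‖) = x n * (Real.log (x n) - Real.log ‖x‖)
  rcases eq_or_ne (x n) 0 with h | h
  · rw [h]; simp
  · have hx : ‖x‖ ≠ 0 := by
      intro h1
      apply h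
      rw [norm_eq_zero.mp h1]
      rfl
    rw [Real.log_div (abs_ne_zero.mpr h) hx, Real.log_abs]

theorem summable_sq (h : H) : Summable (fun n => h n ^ 2) := by
  have h1 := (lp.memℓp h).summable (by norm_num)
  simpa using h1

theorem l2norm_eq (h : H) : l2norm (fun n => h n) = ‖h‖ := by
  have h1 := lp.norm_rpow_eq_tsum (p := 2) (by norm_num) h
  have h2 : ‖h‖ ^ 2 = ∑' n, h n ^ 2 := by simpa using h1
  unfold l2norm
  rw [← h2, Real.sqrt_sq (norm_nonneg h)]

theorem exists_of_summable {f : ℕ → ℝ} (hf : Summable fun n => f n ^ 2) :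
    ∃ h : H, ∀ n, h n = f n := by
  have hm : Memℓp f 2 := by
    apply memℓp_gen
    simpa using hf
  exact ⟨⟨f, hm⟩, fun n => rfl⟩

theorem mem_iff (y : ℕ → ℝ) (x : H) :
    (Summable fun n => (y n - KP x n) ^ 2) ↔ ∃ h : H, ∀ n, h n = y n - K0 x n := by
  constructor
  · intro h
    obtain ⟨h1, h2⟩ := exists_of_summable h
    exact ⟨h1, fun n => by rw [h2, KP_eq]⟩
  · rintro ⟨h, hh⟩
    apply (summable_sq h).congr
    intro n
    rw [hh, KP_eq]

theorem mem_add {y y' : ℕ → ℝ} {x x' : H} (h : Summable fun n => (y n - KP x n) ^ 2)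
    (h' : Summable fun n => (y' n - KP x' n) ^ 2) :
    Summable fun n => ((y + y') n - KP (x + x') n) ^ 2 := by
  rw [mem_iff] at h h' ⊢
  obtain ⟨a, ha⟩ := h
  obtain ⟨b, hb⟩ := h'
  obtain ⟨r, hr, -⟩ := K0_quasi x x'
  refine ⟨a + b - r, fun n => ?_⟩
  show a n + b n - r n = (y n + y' n) - K0 (x + x') n
  rw [ha, hb, hr]
  show _ - (K0 (x + x') n - K0 x n - K0 x' n) = _
  ring

theorem mem_zero : Summable fun n => ((0 : ℕ → ℝ) n - KP (0 : H) n) ^ 2 := by
  rw [mem_iff]
  refine ⟨0, fun n => ?_⟩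
  rw [K0_zero]
  show (0 : ℝ) = 0 - 0
  ring

theorem mem_smul (c : ℝ) {y : ℕ → ℝ} {x : H} (h : Summable fun n => (y n - KP x n) ^ 2) :
    Summable fun n => ((c • y) n - KP (c • x) n) ^ 2 := by
  rw [mem_iff] at h ⊢
  obtain ⟨a, ha⟩ := h
  refine ⟨c • a, fun n => ?_⟩
  rw [K0_smul]
  show c * a n = c * y n - c * K0 x n
  rw [ha]
  ring

theorem mem_neg {y : ℕ → ℝ} {x : H} (h : Summable fun n => (y n - KP x n) ^ 2) :
    Summable fun n => ((-y) n - KP (-x) n) ^ 2 := by
  have h1 := mem_smul (-1) h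
  rw [neg_one_smul, neg_one_smul] at h1
  exact h1

/-- The Kalton-Peck space `Z₂`: pairs `(y, x)` where `x ∈ ℓ²` and `y` is a sequence with
`y - KP x ∈ ℓ²`. -/
structure Z2 where
  /-- the first component of a pair -/
  y : ℕ → ℝ
  /-- the second component of a pair -/
  x : H
  mem : Summable fun n => (y n - KP x n) ^ 2

/-- The first component of a pair. -/
def fst (z : Z2) : ℕ → ℝ := z.y

/-- The second component of a pair. -/
def snd (z : Z2) : H := z.x

theorem ext' {z z' : Z2} (h1 : ∀ n, fst z n = fst z' n) (h2 : snd z = snd z') : z = z' := by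
  cases z with
  | mk a b h =>
    cases z' with
    | mk a' b' h' =>
      have h3 : a = a' := funext h1
      have h4 : b = b' := h2
      subst h3
      subst h4
      rfl

noncomputable instance : Add Z2 := ⟨fun a b => ⟨a.y + b.y, a.x + b.x, mem_add a.mem b.mem⟩⟩
noncomputable instance : Zero Z2 := ⟨⟨0, 0, mem_zero⟩⟩
noncomputable instance : Neg Z2 := ⟨fun a => ⟨-a.y, -a.x, mem_neg a.mem⟩⟩
noncomputable instance : SMul ℝ Z2 := ⟨fun c a => ⟨c • a.y, c • a.x, mem_smul c a.mem⟩⟩

theorem add_assoc' (a b c : Z2) : a + b + c = a + (b + c) :=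
  ext' (fun _ => add_assoc _ _ _) (add_assoc _ _ _)
theorem zero_add' (a : Z2) : 0 + a = a := ext' (fun _ => zero_add _) (zero_add _)
theorem add_zero' (a : Z2) : a + 0 = a := ext' (fun _ => add_zero _) (add_zero _)
theorem neg_add_cancel' (a : Z2) : -a + a = 0 :=
  ext' (fun _ => neg_add_cancel _) (neg_add_cancel _)
theorem add_comm' (a b : Z2) : a + b = b + a := ext' (fun _ => add_comm _ _) (add_comm _ _)
theorem one_smul' (a : Z2) : (1 : ℝ) • a = a := ext' (fun _ => one_mul _) (one_smul ℝ _)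
theorem mul_smul' (c d : ℝ) (a : Z2) : (c * d) • a = c • (d • a) :=
  ext' (fun _ => mul_assoc _ _ _) (mul_smul _ _ _)
theorem smul_zero' (c : ℝ) : c • (0 : Z2) = 0 := ext' (fun _ => mul_zero _) (smul_zero _)
theorem smul_add' (c : ℝ) (a b : Z2) : c • (a + b) = c • a + c • b :=
  ext' (fun _ => mul_add _ _ _) (smul_add _ _ _)
theorem add_smul' (c d : ℝ) (a : Z2) : (c + d) • a = c • a + d • a :=
  ext' (fun _ => add_mul _ _ _) (add_smul _ _ _)
theorem zero_smul' (a : Z2) : (0 : ℝ) • a = 0 := ext' (fun _ => zero_mul _) (zero_smul ℝ _)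

noncomputable instance : AddCommGroup Z2 where
  add_assoc := add_assoc'
  zero_add := zero_add'
  add_zero := add_zero'
  neg_add_cancel := neg_add_cancel'
  add_comm := add_comm'
  nsmul := nsmulRec
  zsmul := zsmulRec

noncomputable instance : Module ℝ Z2 where
  one_smul := one_smul'
  mul_smul := mul_smul'
  smul_zero := smul_zero'
  smul_add := smul_add'
  add_smul := add_smul'
  zero_smul := zero_smul'

/-- The quasi-norm `‖(y, x)‖ = ‖y - KP x‖ + ‖x‖` of `Z₂`. -/
noncomputable def qnorm (z : Z2) : ℝ := l2norm (fun n => fst z n - KP (snd z) n) + ‖snd z‖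

/-- `0 → ℓ² → Z₂ → ℓ² → 0` is exact: `j` and `q` are linear, `j` is an isomorphic embedding, `q` is
bounded and onto and the kernel of `q` is the range of `j`. -/
def IsExact (j : H → Z2) (q : Z2 → H) : Prop :=
  IsLinearMap ℝ j ∧ IsLinearMap ℝ q ∧
    (∃ c C : ℝ, 0 < c ∧ ∀ h : H, c * ‖h‖ ≤ qnorm (j h) ∧ qnorm (j h) ≤ C * ‖h‖) ∧
      (∃ C : ℝ, ∀ z : Z2, ‖q z‖ ≤ C * qnorm z) ∧ (∀ x : H, ∃ z : Z2, q z = x) ∧
        ∀ z : Z2, q z = 0 ↔ ∃ h : H, j h = z

/-- `T` is a bounded linear operator on `ℓ²`. -/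
def IsOp (T : H → H) : Prop := IsBoundedLinearMap ℝ T

/-- The pair `(T, U)` is compatible with the sequence: some bounded linear operator `τ` of `Z₂`
satisfies `τ j = j T` and `q τ = U q`. -/
def IsCompatible (j : H → Z2) (q : Z2 → H) (T U : H → H) : Prop :=
  ∃ τ : Z2 → Z2, IsLinearMap ℝ τ ∧ (∃ C : ℝ, ∀ z : Z2, qnorm (τ z) ≤ C * qnorm z) ∧
    (∀ h : H, τ (j h) = j (T h)) ∧ ∀ z : Z2, q (τ z) = U (q z)

/-- `Z₂` is complete. -/
def Complete : Prop := ∀ u : ℕ → Z2,
  (∀ ε : ℝ, 0 < ε → ∃ N, ∀ m ≥ N, ∀ n ≥ N, qnorm (u m - u n) < ε) →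
    ∃ z : Z2, ∀ ε : ℝ, 0 < ε → ∃ N, ∀ m ≥ N, qnorm (u m - z) < ε

/-- The pairs of finitely supported sequences are dense in `Z₂`. -/
def FinDense : Prop := ∀ (z : Z2) (ε : ℝ), 0 < ε → ∃ z' : Z2,
  (∃ N, ∀ n ≥ N, fst z' n = 0 ∧ snd z' n = 0) ∧ qnorm (z - z') < ε

/-! ### Basic facts -/

theorem z_mem (z : Z2) : Summable fun n => (fst z n - KP (snd z) n) ^ 2 := z.mem

/-- constructor -/
def mk (y : ℕ → ℝ) (x : H) (h : Summable fun n => (y n - KP x n) ^ 2) : Z2 := ⟨y, x, h⟩

theorem fst_sub (z z' : Z2) (n : ℕ) : fst (z - z') n = fst z n - fst z' n := by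
  rw [sub_eq_add_neg, sub_eq_add_neg]
  rfl
theorem snd_sub (z z' : Z2) : snd (z - z') = snd z - snd z' := by
  rw [sub_eq_add_neg, sub_eq_add_neg]
  rfl
theorem fst_add (z z' : Z2) (n : ℕ) : fst (z + z') n = fst z n + fst z' n := rfl
theorem snd_add (z z' : Z2) : snd (z + z') = snd z + snd z' := rfl
theorem fst_smul (c : ℝ) (z : Z2) (n : ℕ) : fst (c • z) n = c * fst z n := rfl
theorem snd_smul (c : ℝ) (z : Z2) : snd (c • z) = c • snd z := rfl

/-- the `ℓ²` part of a pair -/
theorem exists_part (z : Z2) : ∃ h : H, (∀ n, h n = fst z n - K0 (snd z) n) ∧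
    qnorm z = ‖h‖ + ‖snd z‖ := by
  obtain ⟨h, hh⟩ := (mem_iff _ _).mp (z_mem z)
  refine ⟨h, hh, ?_⟩
  unfold qnorm
  rw [← l2norm_eq h]
  congr 2
  funext n
  rw [hh, KP_eq]

theorem qnorm_eq_of (z : Z2) (h : H) (hh : ∀ n, h n = fst z n - K0 (snd z) n) :
    qnorm z = ‖h‖ + ‖snd z‖ := by
  unfold qnorm
  rw [← l2norm_eq h]
  congr 2
  funext n
  rw [hh, KP_eq]

theorem snd_le (z : Z2) : ‖snd z‖ ≤ qnorm z := by
  obtain ⟨h, -, h2⟩ := exists_part z
  rw [h2]
  linarith [norm_nonneg h]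

theorem fst_le (z : Z2) (k : ℕ) : |fst z k| ≤ qnorm z := by
  obtain ⟨h, h1, h2⟩ := exists_part z
  have h3 : fst z k = h k + K0 (snd z) k := by rw [h1]; ring
  rw [h2, h3]
  exact (abs_add_le _ _).trans (add_le_add (coord_le h k) (K0_coord_le _ k))

theorem complete : Complete := by
  intro u hu
  -- second components
  have hx : CauchySeq (fun n => snd (u n)) := by
    rw [Metric.cauchySeq_iff]
    intro ε hε
    obtain ⟨N, hN⟩ := hu ε hε
    refine ⟨N, fun m hm n hn => ?_⟩
    rw [dist_eq_norm, ← snd_sub]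
    exact lt_of_le_of_lt (snd_le _) (hN m hm n hn)
  obtain ⟨x, hx⟩ := cauchySeq_tendsto_of_complete hx
  have hy : ∀ k, ∃ y : ℝ, Tendsto (fun n => fst (u n) k) atTop (𝓝 y) := by
    intro k
    apply cauchySeq_tendsto_of_complete
    rw [Metric.cauchySeq_iff]
    intro ε hε
    obtain ⟨N, hN⟩ := hu ε hε
    refine ⟨N, fun m hm n hn => ?_⟩
    rw [Real.dist_eq, ← fst_sub]
    exact lt_of_le_of_lt (fst_le _ k) (hN m hm n hn)
  choose y hy using hy
  have key : ∀ ε : ℝ, 0 < ε → ∃ N, ∀ m ≥ N, ∃ h : H,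
      (∀ k, h k = (fst (u m) k - y k) - K0 (snd (u m) - x) k) ∧ ‖h‖ ≤ ε ∧
        ‖snd (u m) - x‖ ≤ ε := by
    intro ε hε
    obtain ⟨N, hN⟩ := hu ε hε
    refine ⟨N, fun m hm => ?_⟩
    have hb : Bd (fun k => (fst (u m) k - y k) - K0 (snd (u m) - x) k) ε := by
      apply Bd.of_sum hε.le
      intro s
      have hl : Tendsto (fun n => ∑ k ∈ s, ((fst (u m) k - fst (u n) k) -
          K0 (snd (u m) - snd (u n)) k) ^ 2) atTop
          (𝓝 (∑ k ∈ s, ((fst (u m) k - y k) - K0 (snd (u m) - x) k) ^ 2)) := by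
        apply tendsto_finsetSum
        intro k _
        apply Tendsto.pow
        apply Tendsto.sub
        · exact tendsto_const_nhds.sub (hy k)
        · exact ((K0_cont k).tendsto _).comp (tendsto_const_nhds.sub hx)
      apply le_of_tendsto hl
      filter_upwards [eventually_ge_atTop N] with n hn
      obtain ⟨h, h1, h2⟩ := exists_part (u m - u n)
      have h3 : ‖h‖ ≤ ε := by
        have := hN m hm n hn
        rw [h2] at this
        linarith [norm_nonneg (snd (u m - u n))]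
      have h4 := sq_sum_le h s
      have h5 : ∑ k ∈ s, ((fst (u m) k - fst (u n) k) - K0 (snd (u m) - snd (u n)) k) ^ 2 =
          ∑ k ∈ s, h k ^ 2 := by
        apply Finset.sum_congr rfl
        intro k _
        rw [h1]
        rfl
      rw [h5]
      exact h4.trans (pow_le_pow_left₀ (norm_nonneg _) h3 2)
    obtain ⟨h, h1, h2⟩ := hb
    refine ⟨h, h1, h2, ?_⟩
    have hl : Tendsto (fun n => ‖snd (u m) - snd (u n)‖) atTop (𝓝 ‖snd (u m) - x‖) :=
      (tendsto_const_nhds.sub hx).norm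
    apply le_of_tendsto hl
    filter_upwards [eventually_ge_atTop N] with n hn
    rw [← snd_sub]
    exact (snd_le _).trans (hN m hm n hn).le
  -- the limit is a pair
  have hmem : Summable fun n => (y n - KP x n) ^ 2 := by
    obtain ⟨N, hN⟩ := key 1 one_pos
    obtain ⟨h, h1, -, -⟩ := hN N le_rfl
    obtain ⟨g, hg, -⟩ := exists_part (u N)
    rw [mem_iff]
    obtain ⟨r, hr, -⟩ := K0_quasi x (snd (u N) - x)
    refine ⟨g - h + r, fun k => ?_⟩
    show g k - h k + r k = _
    rw [hg, h1, hr]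
    have h2 : x + (snd (u N) - x) = snd (u N) := by abel
    show _ - _ + (K0 (x + (snd (u N) - x)) k - K0 x k - K0 (snd (u N) - x) k) = _
    rw [h2]
    ring
  refine ⟨mk y x hmem, fun ε hε => ?_⟩
  obtain ⟨N, hN⟩ := key (ε / 3) (by positivity)
  refine ⟨N, fun m hm => ?_⟩
  obtain ⟨h, h1, h2, h3⟩ := hN m hm
  have h4 : qnorm (u m - mk y x hmem) = ‖h‖ + ‖snd (u m) - x‖ :=
    qnorm_eq_of _ h (fun k => h1 k)
  rw [h4]
  linarith

/-- evaluation of a finite truncation -/
theorem trunc_apply (x : H) (N k : ℕ) :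
    (∑ i ∈ Finset.range N, lp.single 2 i (x i) : H) k = if k < N then x k else 0 := by
  let ev : H →+ ℝ :=
    { toFun := fun x => x k
      map_zero' := rfl
      map_add' := fun x y => rfl }
  have h1 : (∑ i ∈ Finset.range N, lp.single 2 i (x i) : H) k =
      ∑ i ∈ Finset.range N, (lp.single 2 i (x i) : H) k :=
    map_sum ev (fun i => (lp.single 2 i (x i) : H)) (Finset.range N)
  rw [h1]
  simp only [lp.single_apply, Pi.single_apply]
  rw [Finset.sum_ite_eq]
  simp only [Finset.mem_range]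

theorem finDense : FinDense := by
  intro z ε hε
  obtain ⟨h, hh, -⟩ := exists_part z
  set x := snd z with hx
  -- truncations
  have hT : ∀ (v : H) (N : ℕ), ∃ w : H, ∀ n, w n = if n < N then v n else 0 := by
    intro v N
    exact ⟨∑ i ∈ Finset.range N, lp.single 2 i (v i), fun n => trunc_apply v N n⟩
  choose P hP using hT
  have hlim : ∀ v : H, Tendsto (fun N => ‖v - P v N‖) atTop (𝓝 0) := by
    intro v
    have h1 := (lp.hasSum_single (p := 2) (by norm_num) v).tendsto_sum_nat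
    have h2 : ∀ N, P v N = ∑ i ∈ Finset.range N, lp.single 2 i (v i) := by
      intro N
      ext n
      rw [hP, trunc_apply v N n]
    have h3 : Tendsto (fun N => v - P v N) atTop (𝓝 (v - v)) := by
      apply tendsto_const_nhds.sub
      have h5 : P v = fun N => ∑ i ∈ Finset.range N, lp.single 2 i (v i) := funext h2
      rw [h5]
      exact h1
    rw [sub_self] at h3
    have h4 := h3.norm
    rwa [norm_zero] at h4
  -- the pair
  have hmem : ∀ N, Summable fun n => ((if n < N then fst z n else 0) - KP (P x N) n) ^ 2 := by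
    intro N
    apply summable_of_ne_finset_zero (s := Finset.range N)
    intro n hn
    rw [Finset.mem_range] at hn
    have h1 : P x N n = 0 := by rw [hP, if_neg hn]
    have h2 : KP (P x N) n = 0 := by
      show P x N n * _ = 0
      rw [h1, zero_mul]
    rw [if_neg hn, h2]
    ring
  -- the difference
  have hdiff : ∀ N, qnorm (z - mk _ _ (hmem N)) ≤ ‖h - P h N‖ +
      |‖x - P x N‖ * Real.log ‖x - P x N‖ - ‖x - P x N‖ * Real.log ‖x‖| + ‖x - P x N‖ := by
    intro N
    have h1 : qnorm (z - mk _ _ (hmem N)) = ‖(h - P h N) +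
        (Real.log ‖x - P x N‖ - Real.log ‖x‖) • (x - P x N)‖ + ‖x - P x N‖ := by
      apply qnorm_eq_of
      intro n
      show (h n - P h N n) + (Real.log ‖x - P x N‖ - Real.log ‖x‖) * (x n - P x N n) =
        (fst z n - (if n < N then fst z n else 0)) -
          (x n - P x N n) * (Real.log (x n - P x N n) - Real.log ‖x - P x N‖)
      rw [hP, hP]
      split_ifs with hn
      · ring
      · have h2 : fst z n = h n + x n * (Real.log (x n) - Real.log ‖x‖) := by
          rw [hh]
          show fst z n = fst z n - x n * (Real.log (x n) - Real.log ‖x‖) + _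
          ring
        rw [h2, sub_zero, sub_zero, sub_zero]
        ring
    rw [h1]
    have h2 := norm_add_le (h - P h N) ((Real.log ‖x - P x N‖ - Real.log ‖x‖) • (x - P x N))
    have h3 : ‖(Real.log ‖x - P x N‖ - Real.log ‖x‖) • (x - P x N)‖ =
        |‖x - P x N‖ * Real.log ‖x - P x N‖ - ‖x - P x N‖ * Real.log ‖x‖| := by
      rw [norm_smul, Real.norm_eq_abs, ← abs_norm (x - P x N), ← abs_mul, abs_norm]
      congr 1
      ring
    rw [h3] at h2
    linarith
  have hR : Tendsto (fun N => ‖h - P h N‖ +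
      |‖x - P x N‖ * Real.log ‖x - P x N‖ - ‖x - P x N‖ * Real.log ‖x‖| + ‖x - P x N‖)
      atTop (𝓝 0) := by
    have h1 := hlim h
    have h2 := hlim x
    have h3 : Tendsto (fun N => ‖x - P x N‖ * Real.log ‖x - P x N‖) atTop (𝓝 0) := by
      have h4 := (Real.continuous_mul_log.tendsto 0).comp h2
      rw [zero_mul] at h4
      exact h4
    have h4 : Tendsto (fun N => ‖x - P x N‖ * Real.log ‖x‖) atTop (𝓝 0) := by
      have := h2.mul_const (Real.log ‖x‖)
      rwa [zero_mul] at this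
    have h5 := (h3.sub h4).abs
    have h6 := (h1.add h5).add h2
    simpa using h6
  have hev := (hR.eventually (gt_mem_nhds hε)).exists
  obtain ⟨N, hN⟩ := hev
  refine ⟨mk _ _ (hmem N), ⟨N, fun n hn => ⟨?_, ?_⟩⟩, lt_of_le_of_lt (hdiff N) hN⟩
  · show (if n < N then fst z n else 0) = 0
    rw [if_neg (by omega)]
  · show P x N n = 0
    rw [hP, if_neg (by omega)]

/-! ### The sequence and the pair -/

open Pool.Agent.V11102.KP (D D' U T D_D' D'_D U_zero U_succ U_norm not_compact T_eq sh)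

theorem mem_l2 (h : H) : Summable fun n => (h n - KP (0 : H) n) ^ 2 := by
  rw [mem_iff]
  refine ⟨h, fun n => ?_⟩
  rw [K0_zero]
  show h n = h n - 0
  ring

/-- the embedding `h ↦ (D' h, 0)` -/
noncomputable def j : H →ₗ[ℝ] Z2 where
  toFun := fun h => mk (fun n => D' h n) 0 (mem_l2 (D' h))
  map_add' := fun a b => by
    apply ext'
    · intro n
      rw [fst_add]
      show D' (a + b) n = D' a n + D' b n
      rw [map_add]
      rfl
    · rw [snd_add]
      show (0 : H) = 0 + 0
      rw [add_zero]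
  map_smul' := fun c a => by
    apply ext'
    · intro n
      show D' (c • a) n = c * D' a n
      rw [map_smul]
      rfl
    · show (0 : H) = c • (0 : H)
      rw [smul_zero]

theorem qnorm_j (h : H) : qnorm (j h) = ‖D' h‖ := by
  have h1 : qnorm (j h) = ‖D' h‖ + ‖(0 : H)‖ := by
    apply qnorm_eq_of (j h) (D' h)
    intro n
    show D' h n = D' h n - K0 (0 : H) n
    rw [K0_zero]
    show D' h n = D' h n - 0
    ring
  rw [h1, norm_zero, add_zero]

/-- the quotient map `(y, x) ↦ x` -/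
noncomputable def q : Z2 →ₗ[ℝ] H where
  toFun := fun z => snd z
  map_add' := fun a b => snd_add a b
  map_smul' := fun c a => snd_smul c a

theorem exact : IsExact j q := by
  refine ⟨j.isLinear, q.isLinear, ⟨(‖D‖ + 1)⁻¹, ‖D'‖, by positivity, fun h => ⟨?_, ?_⟩⟩, ⟨1, fun z => ?_⟩, ?_, ?_⟩
  · rw [qnorm_j]
    have h1 : ‖h‖ ≤ (‖D‖ + 1) * ‖D' h‖ := by
      calc ‖h‖ = ‖D (D' h)‖ := by rw [D_D']
        _ ≤ ‖D‖ * ‖D' h‖ := D.le_opNorm _
        _ ≤ (‖D‖ + 1) * ‖D' h‖ := by nlinarith [norm_nonneg (D' h)]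
    have h2 : 0 < ‖D‖ + 1 := by positivity
    rw [inv_mul_le_iff₀ h2]
    exact h1
  · rw [qnorm_j]
    exact D'.le_opNorm h
  · rw [one_mul]
    exact snd_le z
  · intro x
    refine ⟨mk (fun n => K0 x n) x ?_, rfl⟩
    rw [mem_iff]
    refine ⟨0, fun n => ?_⟩
    show (0 : ℝ) = K0 x n - K0 x n
    ring
  · intro z
    constructor
    · intro hz
      have hz' : snd z = 0 := hz
      obtain ⟨h, hh, -⟩ := exists_part z
      refine ⟨D h, ?_⟩
      apply ext'
      · intro n
        show D' (D h) n = fst z n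
        rw [D'_D, hh, hz', K0_zero]
        show fst z n - 0 = fst z n
        ring
      · exact hz'.symm
    · rintro ⟨h, rfl⟩
      rfl

theorem K0_sh (x : H) (n : ℕ) : K0 (U x) n = sh (K0 x) n := by
  cases n with
  | zero =>
    show U x 0 * _ = 0
    rw [U_zero, zero_mul]
  | succ n =>
    show U x (n + 1) * (Real.log (U x (n + 1)) - Real.log ‖U x‖) = _
    rw [U_succ, U_norm]; rfl

theorem sh_part (z : Z2) (h : H) (hh : ∀ n, h n = fst z n - K0 (snd z) n) (n : ℕ) :
    U h n = sh (fst z) n - K0 (U (snd z)) n := by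
  rw [K0_sh]
  cases n with
  | zero =>
    rw [U_zero]
    show (0 : ℝ) = 0 - 0
    ring
  | succ n =>
    rw [U_succ, hh]
    rfl

theorem sh_mem (z : Z2) : Summable fun n => (sh (fst z) n - KP (U (snd z)) n) ^ 2 := by
  rw [mem_iff]
  obtain ⟨h, hh, -⟩ := exists_part z
  exact ⟨U h, fun n => sh_part z h hh n⟩

/-- the operator `(y, x) ↦ (S y, S x)`, `S` the right shift -/
noncomputable def τ : Z2 →ₗ[ℝ] Z2 where
  toFun := fun z => mk (sh (fst z)) (U (snd z)) (sh_mem z)
  map_add' := fun a b => by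
    apply ext'
    · intro n
      show sh (fst (a + b)) n = sh (fst a) n + sh (fst b) n
      cases n with
      | zero => show (0 : ℝ) = 0 + 0; ring
      | succ n => rfl
    · show U (snd (a + b)) = U (snd a) + U (snd b)
      rw [snd_add, map_add]
  map_smul' := fun c a => by
    apply ext'
    · intro n
      show sh (fst (c • a)) n = c * sh (fst a) n
      cases n with
      | zero => show (0 : ℝ) = c * 0; ring
      | succ n => rfl
    · show U (snd (c • a)) = c • U (snd a)
      rw [snd_smul, map_smul]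

theorem qnorm_τ (z : Z2) : qnorm (τ z) = qnorm z := by
  obtain ⟨h, hh, h2⟩ := exists_part z
  have h1 : qnorm (τ z) = ‖U h‖ + ‖U (snd z)‖ := by
    apply qnorm_eq_of (τ z) (U h)
    intro n
    exact sh_part z h hh n
  rw [h1, h2, U_norm, U_norm]

/-- `Z₂` (realised as the space of pairs `(y, x)` with `x ∈ ℓ²` and `y - KP x ∈ ℓ²`, which is
complete and contains the pairs of finitely supported sequences as a dense subspace) admits an
exact sequence `0 → ℓ² → Z₂ → ℓ² → 0` and a compatible pair `(T, U)` such that `T - U` is not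
compact. -/
theorem result : Complete ∧ FinDense ∧ ∃ (j : H → Z2) (q : Z2 → H), IsExact j q ∧
    ∃ T U : H → H, IsOp T ∧ IsOp U ∧ IsCompatible j q T U ∧
      ¬ IsCompactOperator (fun x => T x - U x) := by
  refine ⟨complete, finDense, j, q, exact, T, U, T.isBoundedLinearMap, U.isBoundedLinearMap,
    ⟨τ, τ.isLinear, ⟨1, fun z => ?_⟩, fun h => ?_, fun z => rfl⟩, not_compact⟩
  · rw [one_mul, qnorm_τ]
  · apply ext'
    · intro n
      show sh (fun n => D' h n) n = D' (T h) n
      rw [T_eq, D'_D]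
      rfl
    · show U (0 : H) = 0
      rw [map_zero]

end Pool.Agent.Results.MP_23ded2_an.NonCompactPair
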